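import Pool.Agent.helper53.BND.SpecL

/-! Row bnd:LBD (helper24): determinants of block diagonal matrices of words. -/

set_option autoImplicit false

open scoped Topology Matrix
open Filter Finset

namespace Pool.Agent.BND

open Pool.Agent.CZ Pool.Agent.PV

/-- the index set of a word with one more letter -/
def LBD_e (κ : Type) (n m : ℕ) : (κ × Fin n) ⊕ (κ × Fin m) ≃ κ × Fin (n + m) :=
  (Equiv.prodSumDistrib κ (Fin n) (Fin m)).symm.trans (Equiv.prodCongr (Equiv.refl κ) finSumFinEquiv)

theorem LBD_l (κ : Type) (n m : ℕ) (p : κ × Fin n) : LBD_e κ n m (Sum.inl p) = (p.1, Fin.castAdd m p.2) := rfl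

theorem LBD_r (κ : Type) (n m : ℕ) (p : κ × Fin m) : LBD_e κ n m (Sum.inr p) = (p.1, Fin.natAdd n p.2) := rfl

theorem LBD_det {ι κ : Type} [Fintype κ] [DecidableEq κ] (η : ι → ℕ) (x : κ → κ → ι → ℕ → ℕ → ℂ) (w : List ι) :
    (Matrix.of fun p q : κ × Fin ((w.map η).sum) => bg η w (x p.1 q.1) p.2 q.2).det =
    (w.map fun a => (Matrix.of fun p q : κ × Fin (η a) => x p.1 q.1 a p.2 q.2).det).prod := by
  induction w with
  | nil =>
    have : IsEmpty (κ × Fin (([] : List ι).map η).sum) := by
      show IsEmpty (κ × Fin 0)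
      infer_instance
    rw [Matrix.det_isEmpty]
    rfl
  | cons a w ih =>
    have h1 : (Matrix.of fun p q : κ × Fin (η a + (w.map η).sum) => bg η (a :: w) (x p.1 q.1) p.2 q.2).submatrix
        (LBD_e κ (η a) (w.map η).sum) (LBD_e κ (η a) (w.map η).sum) =
        Matrix.fromBlocks (Matrix.of fun p q : κ × Fin (η a) => x p.1 q.1 a p.2 q.2) 0 0
          (Matrix.of fun p q : κ × Fin ((w.map η).sum) => bg η w (x p.1 q.1) p.2 q.2) := by
      ext p q
      rcases p with ⟨p1, p2⟩ | ⟨p1, p2⟩ <;> rcases q with ⟨q1, q2⟩ | ⟨q1, q2⟩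
      · rw [Matrix.submatrix_apply, LBD_l, LBD_l, Matrix.fromBlocks_apply₁₁, Matrix.of_apply, Matrix.of_apply]
        simp only [bg, Fin.val_castAdd]
        rw [if_pos ⟨p2.2, q2.2⟩]
      · rw [Matrix.submatrix_apply, LBD_l, LBD_r, Matrix.fromBlocks_apply₁₂, Matrix.of_apply, Matrix.zero_apply]
        simp only [bg, Fin.val_castAdd, Fin.val_natAdd]
        rw [if_neg (by omega), if_neg (by omega)]
      · rw [Matrix.submatrix_apply, LBD_l, LBD_r, Matrix.fromBlocks_apply₂₁, Matrix.of_apply, Matrix.zero_apply]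
        simp only [bg, Fin.val_castAdd, Fin.val_natAdd]
        rw [if_neg (by omega), if_neg (by omega)]
      · rw [Matrix.submatrix_apply, LBD_r, LBD_r, Matrix.fromBlocks_apply₂₂, Matrix.of_apply, Matrix.of_apply]
        simp only [bg, Fin.val_natAdd]
        rw [if_neg (by omega), if_pos (by omega), Nat.add_sub_cancel_left, Nat.add_sub_cancel_left]
    have h2 := Matrix.det_submatrix_equiv_self (LBD_e κ (η a) (w.map η).sum)
      (Matrix.of fun p q : κ × Fin (η a + (w.map η).sum) => bg η (a :: w) (x p.1 q.1) p.2 q.2)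
    rw [h1, Matrix.det_fromBlocks_zero₂₁, ih] at h2
    exact h2.symm

theorem LBD_bd (h : ℕ → ℕ) (x : ℕ → ℕ → ℕ → ℂ) (u : List ℕ) :
    ∀ i j : ℕ, i < (u.map h).sum → j < (u.map h).sum → bd h u x i j = bg h u x i j := by
  induction u with
  | nil =>
    intro i j hi
    exact absurd hi (Nat.not_lt_zero _)
  | cons a u ih =>
    intro i j hi hj
    rw [List.map_cons, List.sum_cons] at hi hj
    by_cases h1 : i < h a
    · by_cases h2 : j < h a
      · simp [bd, bg, fp, fl, h1, h2]
      · have h3 : ¬ h a ≤ i := by omega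
        simp [bd, bg, fp, fl, h1, h2, h3]
    · by_cases h2 : j < h a
      · have h3 : ¬ h a ≤ j := by omega
        simp [bd, bg, fp, fl, h1, h2, h3]
      · have h3 : h a ≤ i := by omega
        have h4 : h a ≤ j := by omega
        have h5 := ih (i - h a) (j - h a) (by omega) (by omega)
        simp only [bg, h1, h2, h3, h4, false_and, if_false, true_and, if_true, and_true]
        rw [← h5]
        simp only [bd, fp, fl, h1, h2, if_false, Nat.add_right_cancel_iff]

theorem LBD : LBD_stmt :=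
  ⟨fun _ _ _ _ η w x => LBD_det η x w, fun h u x i j hi hj => LBD_bd h x u i j hi hj⟩

end Pool.Agent.BND
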