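import Pool.Agent.helper53.BND.SpecL

/-! Row bnd:LD1 (helper24): the determinant on `K₁`. -/

set_option autoImplicit false

open scoped Topology Matrix
open Filter Finset

namespace Pool.Agent.BND

open Pool.Agent.CZ Pool.Agent.PV

theorem LD1_mul {C : Type} [CommRing C] {ι : Type} [Fintype ι] [DecidableEq ι] (g h : (Matrix ι ι C)ˣ) :
    detU (g * h) = detU g * detU h := by
  unfold detU
  rw [map_mul, map_mul]

theorem LD1_eq {C : Type} [CommRing C] {ι κ : Type} [Fintype ι] [DecidableEq ι] [Fintype κ] [DecidableEq κ]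
    (g : (Matrix ι ι C)ˣ) (h : (Matrix κ κ C)ˣ) (e : (g : Matrix ι ι C).det = (h : Matrix κ κ C).det) :
    detU g = detU h := by
  apply Units.ext
  show (Matrix.scalar Unit : C →+* Matrix Unit Unit C) (g : Matrix ι ι C).det =
    (Matrix.scalar Unit : C →+* Matrix Unit Unit C) (h : Matrix κ κ C).det
  rw [e]

theorem LD1_eqm {C : Type} [CommRing C] {ι κ τ : Type} [Fintype ι] [DecidableEq ι] [Fintype κ] [DecidableEq κ]
    [Fintype τ] [DecidableEq τ] (k : (Matrix τ τ C)ˣ)
    (g : (Matrix ι ι C)ˣ) (h : (Matrix κ κ C)ˣ)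
    (e : (k : Matrix τ τ C).det = (g : Matrix ι ι C).det * (h : Matrix κ κ C).det) :
    detU k = detU g * detU h := by
  apply Units.ext
  show (Matrix.scalar Unit : C →+* Matrix Unit Unit C) (k : Matrix τ τ C).det =
    (Matrix.scalar Unit : C →+* Matrix Unit Unit C) (g : Matrix ι ι C).det *
      (Matrix.scalar Unit : C →+* Matrix Unit Unit C) (h : Matrix κ κ C).det
  rw [e, map_mul]

theorem LD1_htp {C : Type} [CommRing C] [TopologicalSpace C] [IsTopologicalRing C] {ι : Type} [Fintype ι]
    [DecidableEq ι] (g h : (Matrix ι ι C)ˣ) (H : Htp g h) : Htp (detU g) (detU h) := by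
  obtain ⟨γ, h1, h2, h3⟩ := H
  refine ⟨⟨fun t => (Matrix.scalar Unit : C →+* Matrix Unit Unit C) (γ t).det, ?_⟩, ?_, ?_, ?_⟩
  · exact (Continuous.matrix_diagonal (continuous_pi fun _ => γ.continuous.matrix_det))
  · intro t
    exact ((Matrix.isUnit_iff_isUnit_det (γ t)).1 (h1 t)).map (Matrix.scalar Unit : C →+* Matrix Unit Unit C)
  · show (Matrix.scalar Unit : C →+* Matrix Unit Unit C) (γ 0).det = _
    rw [h2]
    rfl
  · show (Matrix.scalar Unit : C →+* Matrix Unit Unit C) (γ 1).det = _
    rw [h3]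
    rfl

theorem LD1 (hK1M : K1M_stmt) : LD1_stmt := by
  intro C _ _ _
  have hrel : ∀ z ∈ AddSubgroup.closure (K1Rel C),
      FreeAbelianGroup.lift (fun p : InvMat C => (k1 (detU p.g) : K1 C)) z = 0 := by
    intro z hz
    have h1 : AddSubgroup.closure (K1Rel C) ≤
        (FreeAbelianGroup.lift (fun p : InvMat C => (k1 (detU p.g) : K1 C))).ker := by
      rw [AddSubgroup.closure_le]
      rintro z (⟨n, g, h, rfl⟩ | ⟨n, m, g, h, k, hk, rfl⟩ | ⟨n, g, h, hgh, rfl⟩)
      · show FreeAbelianGroup.lift (fun p : InvMat C => (k1 (detU p.g) : K1 C)) _ = 0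
        rw [map_sub, map_sub, FreeAbelianGroup.lift_apply_of, FreeAbelianGroup.lift_apply_of,
          FreeAbelianGroup.lift_apply_of, LD1_mul, (hK1M C Unit (detU g) (detU h)).1, add_sub_cancel_left, sub_self]
      · show FreeAbelianGroup.lift (fun p : InvMat C => (k1 (detU p.g) : K1 C)) _ = 0
        have h2 : detU k = detU g * detU h := by
          apply LD1_eqm
          rw [hk]
          unfold dsum
          rw [Matrix.det_submatrix_equiv_self, Matrix.det_fromBlocks_zero₂₁]
        rw [map_sub, map_sub, FreeAbelianGroup.lift_apply_of, FreeAbelianGroup.lift_apply_of,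
          FreeAbelianGroup.lift_apply_of, h2, (hK1M C Unit (detU g) (detU h)).1, add_sub_cancel_left, sub_self]
      · show FreeAbelianGroup.lift (fun p : InvMat C => (k1 (detU p.g) : K1 C)) _ = 0
        rw [map_sub, FreeAbelianGroup.lift_apply_of, FreeAbelianGroup.lift_apply_of,
          (hK1M C Unit (detU g) (detU h)).2.2.2 (LD1_htp g h hgh), sub_self]
    exact h1 hz
  refine ⟨QuotientAddGroup.lift _ (FreeAbelianGroup.lift (fun p : InvMat C => (k1 (detU p.g) : K1 C))) hrel, ?_⟩
  intro ι _ _ g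
  show FreeAbelianGroup.lift (fun p : InvMat C => (k1 (detU p.g) : K1 C))
    (FreeAbelianGroup.of ⟨Fintype.card ι, rix (Fintype.equivFin ι) g⟩) = _
  rw [FreeAbelianGroup.lift_apply_of]
  show k1 (detU (rix (Fintype.equivFin ι) g)) = k1 (detU g)
  congr 1
  apply LD1_eq
  show ((Matrix.reindexRingEquiv C (Fintype.equivFin ι)) (g : Matrix ι ι C)).det = _
  exact Matrix.det_submatrix_equiv_self _ _

end Pool.Agent.BND
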