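import Pool.Agent.helper77.BND.SpecD

/-! Row bnd:SBN (helper24): fibres of `x ↦ x k` over generic points of the bands are null sets for all invariant
probability measures. -/

set_option autoImplicit false

open scoped Topology
open Finset

namespace Pool.Agent.BND

open Pool.Agent.CZ Pool.Agent.PV

theorem SBN_gen {X : Type} [TopologicalSpace X] [MeasurableSpace X] [BorelSpace X] (α : X ≃ₜ X)
    (μ : MeasureTheory.Measure X) (hp : MeasureTheory.IsProbabilityMeasure μ) (hμ : μ.map α = μ) (F : Set X)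
    (hF : MeasurableSet F) (k : ℕ)
    (h : ∀ (d : ℕ) (x : X) (N : ℕ), by
      classical exact ((((range N).filter fun j => (α ^ j) x ∈ F).card : ℝ) ≤ (N : ℝ) / ((k + d : ℕ) + 1) + 2)) :
    μ F = 0 := by
  classical
  have hmap : ∀ j : ℕ, μ.map (α ^ j : X ≃ₜ X) = μ := by
    intro j
    induction j with
    | zero =>
      rw [pow_zero]
      exact MeasureTheory.Measure.map_id
    | succ j ih =>
      have h1 : (⇑(α ^ (j + 1)) : X → X) = ⇑(α ^ j) ∘ ⇑α := by
        rw [pow_succ]
        rfl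
      rw [h1, ← MeasureTheory.Measure.map_map (α ^ j).continuous.measurable α.continuous.measurable, hμ, ih]
  have hpre : ∀ j : ℕ, μ ((α ^ j : X ≃ₜ X) ⁻¹' F) = μ F := by
    intro j
    rw [← MeasureTheory.Measure.map_apply (α ^ j).continuous.measurable hF, hmap]
  have hmeas : ∀ j : ℕ, MeasurableSet ((α ^ j : X ≃ₜ X) ⁻¹' F) := fun j => (α ^ j).continuous.measurable hF
  have hmain : ∀ (d N : ℕ), (N : ℝ) * (μ F).toReal ≤ (N : ℝ) / ((k + d : ℕ) + 1) + 2 := by
    intro d N
    have hb : (0 : ℝ) ≤ (N : ℝ) / ((k + d : ℕ) + 1) + 2 := by positivity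
    have h1 : (N : ENNReal) * μ F ≤ ENNReal.ofReal ((N : ℝ) / ((k + d : ℕ) + 1) + 2) := by
      calc (N : ENNReal) * μ F = ∑ j ∈ range N, μ ((α ^ j : X ≃ₜ X) ⁻¹' F) := by
            rw [Finset.sum_congr rfl fun j _ => hpre j, Finset.sum_const, card_range, nsmul_eq_mul]
        _ = ∑ j ∈ range N, ∫⁻ x, ((α ^ j : X ≃ₜ X) ⁻¹' F).indicator (fun _ => (1 : ENNReal)) x ∂μ := by
            refine Finset.sum_congr rfl fun j _ => ?_
            rw [MeasureTheory.lintegral_indicator_const (hmeas j), one_mul]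
        _ = ∫⁻ x, ∑ j ∈ range N, ((α ^ j : X ≃ₜ X) ⁻¹' F).indicator (fun _ => (1 : ENNReal)) x ∂μ := by
            rw [MeasureTheory.lintegral_finsetSum]
            intro j _
            exact measurable_const.indicator (hmeas j)
        _ ≤ ∫⁻ _, ENNReal.ofReal ((N : ℝ) / ((k + d : ℕ) + 1) + 2) ∂μ := by
            refine MeasureTheory.lintegral_mono fun x => ?_
            have h2 : ∑ j ∈ range N, ((α ^ j : X ≃ₜ X) ⁻¹' F).indicator (fun _ => (1 : ENNReal)) x =
                ((((range N).filter fun j => (α ^ j) x ∈ F).card : ℕ) : ENNReal) := by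
              rw [Finset.card_filter, Nat.cast_sum]
              refine Finset.sum_congr rfl fun j _ => ?_
              rw [Set.indicator_apply]
              by_cases hj : (α ^ j) x ∈ F
              · rw [if_pos hj, if_pos (show x ∈ (α ^ j : X ≃ₜ X) ⁻¹' F from hj), Nat.cast_one]
              · rw [if_neg hj, if_neg (show ¬ x ∈ (α ^ j : X ≃ₜ X) ⁻¹' F from hj), Nat.cast_zero]
            show ∑ j ∈ range N, ((α ^ j : X ≃ₜ X) ⁻¹' F).indicator (fun _ => (1 : ENNReal)) x ≤ _
            rw [h2, ← ENNReal.ofReal_natCast]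
            exact ENNReal.ofReal_le_ofReal (h d x N)
        _ = ENNReal.ofReal ((N : ℝ) / ((k + d : ℕ) + 1) + 2) := by
            rw [MeasureTheory.lintegral_const, MeasureTheory.measure_univ, mul_one]
    have h3 := ENNReal.toReal_mono ENNReal.ofReal_ne_top h1
    rwa [ENNReal.toReal_mul, ENNReal.toReal_natCast, ENNReal.toReal_ofReal hb] at h3
  by_contra hne
  have hfin : μ F ≠ ⊤ := MeasureTheory.measure_ne_top μ F
  have hr : 0 < (μ F).toReal := ENNReal.toReal_pos hne hfin
  set r := (μ F).toReal with hrd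
  obtain ⟨d, hd⟩ := exists_nat_gt (2 / r)
  obtain ⟨N, hN⟩ := exists_nat_gt (4 / r)
  have h1 := hmain d N
  have hN0 : (0 : ℝ) < N := lt_trans (by positivity) hN
  have h2 : (N : ℝ) / ((k + d : ℕ) + 1) ≤ N * (r / 2) := by
    rw [div_eq_mul_inv]
    refine mul_le_mul_of_nonneg_left ?_ hN0.le
    rw [inv_le_comm₀ (by positivity) (by positivity)]
    have h4 : (r / 2)⁻¹ = 2 / r := by rw [inv_div]
    rw [h4]
    push_cast
    have h5 : (0 : ℝ) ≤ k := Nat.cast_nonneg k
    linarith
  have h6 : (N : ℝ) * r > 4 := by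
    rw [div_lt_iff₀ hr] at hN
    exact hN
  linarith

theorem SBN (hSBA : SBA_stmt) (hSBV : SBV_stmt) : SBN_stmt := by
  classical
  intro B M hB α hα hαI k
  obtain ⟨Bad, hBad, hSBA'⟩ := hSBA B M hB k
  refine ⟨Bad, hBad, ?_⟩
  intro e s i he heN hs0 hs1 hsB hi _ _ μ hp hμ
  have hcont : Continuous fun x : ↥(XS B) => x.1 k := (continuous_apply k).comp continuous_subtype_val
  have hclosed : IsClosed {x : ↥(XS B) | x.1 k = emb (B.L k) e s i} := isClosed_eq hcont continuous_const
  refine SBN_gen α μ hp hμ _ hclosed.measurableSet k ?_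
  intro d x N
  exact hSBV B M hB α hα hαI k d (emb (B.L k) e s i)
    (fun a t ha ht j j' hj hj' => hSBA' e s i he heN hs0 hs1 hsB hi d a t ha ht j j' hj hj') x N

end Pool.Agent.BND
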