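import Pool.Agent.helper53.BND.SpecT

/-! Row bnd:TCL (helper24): an invariant state is at most the supremum of the averages over the vertices. -/

set_option autoImplicit false

open scoped Topology
open Finset Filter

namespace Pool.Agent.BND

open Pool.Agent.CZ Pool.Agent.PV Pool.Agent.PVH

/-- the sequence of integer vectors -/
def TCL_z (B : BS) (M : ℕ → ℕ → ℕ → ℕ) (m₀ : ℕ) (z₀ : ℕ → ℤ) : ℕ → ℕ → ℤ
  | 0 => z₀
  | j + 1 => fun v' => ∑ v ∈ range (B.L (m₀ + j)).n, (M (m₀ + j) v' v : ℤ) * TCL_z B M m₀ z₀ j v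

theorem TCL_zs (B : BS) (M : ℕ → ℕ → ℕ → ℕ) (m₀ : ℕ) (z₀ : ℕ → ℤ) (m v' : ℕ) (hm : m₀ ≤ m) :
    TCL_z B M m₀ z₀ (m + 1 - m₀) v' =
      ∑ v ∈ range (B.L m).n, (M m v' v : ℤ) * TCL_z B M m₀ z₀ (m - m₀) v := by
  obtain ⟨j, rfl⟩ := Nat.exists_eq_add_of_le hm
  have h1 : m₀ + j + 1 - m₀ = j + 1 := by omega
  have h2 : m₀ + j - m₀ = j := by omega
  rw [h1, h2]
  rfl

theorem TCL (hTWT : TWT_stmt) (hTS1 : TS1_stmt) (hTS2 : TS2_stmt) (hTKL : TKL_stmt) (hTPR : TPR_stmt)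
    (hTBK : TBK_stmt) (hTBI : TBI_stmt) : TCL_stmt := by
  intro E _ _ _ K H _ ρ g hKD B M th H' hB hTh α hα hαI φ k F f C μ hC hF hf hav
  refine le_of_forall_pos_le_add fun δ' hδ' => ?_
  obtain ⟨δ, hδ, hδδ⟩ : ∃ δ : ℝ, 0 < δ ∧ 3 * δ = δ' := ⟨δ' / 3, by positivity, by ring⟩
  -- the level
  obtain ⟨N, hN⟩ := exists_pow_lt_of_lt_one (show (0 : ℝ) < δ / (2 * C) by positivity)
    (show (1 / 2 : ℝ) < 1 by norm_num)
  obtain ⟨d, hd, hdav⟩ := hav N
  have hsmall : ∀ j, k + d ≤ j → 2 * C * (1 / 2 : ℝ) ^ j ≤ δ := by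
    intro j hj
    have h1 : (1 / 2 : ℝ) ^ j ≤ (1 / 2 : ℝ) ^ N :=
      pow_le_pow_of_le_one (by norm_num) (by norm_num) (by omega)
    rw [lt_div_iff₀ (by positivity)] at hN
    nlinarith
  obtain ⟨q, hq⟩ := exists_nat_gt (1 / δ)
  have hq0 : (0 : ℝ) < q := lt_trans (by positivity) hq
  have hqδ : 1 < (q : ℝ) * δ := by
    rw [div_lt_iff₀ hδ] at hq
    exact hq
  -- the integers
  set z₀ : ℕ → ℤ := fun v => ⌈(q : ℝ) * (B.ls k d F v 0 - (μ + δ) * (B.L (k + d)).h v)⌉ with hz₀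
  set z : ℕ → ℕ → ℤ := fun m => TCL_z B M (k + d) z₀ (m - (k + d)) with hz
  have hzz : z (k + d) = z₀ := by
    rw [hz]
    simp only [Nat.sub_self]
    rfl
  have hzs : ∀ m v', k + d ≤ m → v' < (B.L (m + 1)).n →
      z (m + 1) v' = ∑ v ∈ range (B.L m).n, (M m v' v : ℤ) * z m v := by
    intro m v' hm _
    exact TCL_zs B M (k + d) z₀ m v' hm
  have hpos : KP K ρ (-∑ v ∈ range (B.L (k + d)).n, z (k + d) v • th (k + d) v) := by
    intro t
    have hwt := hTWT E K H ρ g hKD B M th H' hTh t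
    have h1 : ρ (-∑ v ∈ range (B.L (k + d)).n, z (k + d) v • th (k + d) v) t =
        -∑ v ∈ range (B.L (k + d)).n, (z₀ v : ℝ) * ρ (th (k + d) v) t := by
      rw [hzz, map_neg, map_sum, ContinuousMap.neg_apply, ContinuousMap.sum_apply]
      congr 1
      refine Finset.sum_congr rfl fun v _ => ?_
      rw [map_zsmul, ContinuousMap.smul_apply, zsmul_eq_mul]
    rw [h1, neg_pos]
    have hr1 : ∑ v ∈ range (B.L (k + d)).n, ρ (th (k + d) v) t ≤ 1 := by
      rw [← hwt.unit (k + d)]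
      refine Finset.sum_le_sum fun v hv => ?_
      have h2 : (1 : ℝ) ≤ (B.L (k + d)).h v := by
        exact_mod_cast (hB.lv (k + d)).pos v (lt_of_lt_of_le (mem_range.1 hv) (hB.lv (k + d)).nN)
      have h3 := hwt.nn (k + d) v (mem_range.1 hv)
      have h4 : 0 ≤ ρ (th (k + d) v) t := h3
      nlinarith
    have h2 : ∑ v ∈ range (B.L (k + d)).n, (z₀ v : ℝ) * ρ (th (k + d) v) t ≤
        ∑ v ∈ range (B.L (k + d)).n, ((q : ℝ) * (B.ls k d F v 0 - (μ + δ) * (B.L (k + d)).h v) + 1) *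
          ρ (th (k + d) v) t := by
      refine Finset.sum_le_sum fun v hv => ?_
      have h3 : 0 ≤ ρ (th (k + d) v) t := hwt.nn (k + d) v (mem_range.1 hv)
      exact mul_le_mul_of_nonneg_right (Int.ceil_lt_add_one _).le h3
    have h3 : ∑ v ∈ range (B.L (k + d)).n, ((q : ℝ) * (B.ls k d F v 0 - (μ + δ) * (B.L (k + d)).h v) + 1) *
          ρ (th (k + d) v) t = (q : ℝ) * (B.av (fun m v => ρ (th m v) t) k d F) -
        (q : ℝ) * (μ + δ) * (∑ v ∈ range (B.L (k + d)).n, ((B.L (k + d)).h v : ℝ) * ρ (th (k + d) v) t) +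
        ∑ v ∈ range (B.L (k + d)).n, ρ (th (k + d) v) t := by
      unfold BS.av
      rw [Finset.mul_sum, Finset.mul_sum, ← Finset.sum_sub_distrib, ← Finset.sum_add_distrib]
      refine Finset.sum_congr rfl fun v _ => ?_
      ring
    have h4 : ∑ v ∈ range (B.L (k + d)).n, ((B.L (k + d)).h v : ℝ) * ρ (th (k + d) v) t = 1 := hwt.unit (k + d)
    rw [h3, h4] at h2
    have h5 := hdav t
    nlinarith
  obtain ⟨m₁, hm₁, hneg⟩ := hTKL H B M (KP K ρ) g th H' hTh (k + d) z hzs hpos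
  -- the sums over the vertices of a high level
  have hpr := hTPR B M hB (k + d) (fun m v => B.ls k (m - k) F v 0) (fun m v => (z m v : ℝ) / q) C (μ + δ) hC.le
    (by
      intro m v' hm hv'
      obtain ⟨j, rfl⟩ : ∃ j, m = k + j := ⟨m - k, by omega⟩
      have e1 : k + j + 1 - k = j + 1 := by omega
      have e2 : k + j - k = j := by omega
      simp only [e1, e2]
      have h1 := hTS1 B M hB k j F C hC hF v' hv'
      rw [abs_le] at h1
      linarith [h1.2])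
    (by
      intro m v' hm hv'
      rw [hzs m v' hm hv']
      push_cast
      rw [Finset.sum_div]
      refine Finset.sum_congr rfl fun v _ => ?_
      ring)
    (by
      intro v hv
      have e2 : k + d - k = d := by omega
      simp only [e2, hzz]
      have h1 : (q : ℝ) * (B.ls k d F v 0 - (μ + δ) * (B.L (k + d)).h v) ≤ (z₀ v : ℝ) := Int.le_ceil _
      have h2 : B.ls k d F v 0 - (μ + δ) * (B.L (k + d)).h v ≤ (z₀ v : ℝ) / q := by
        rw [le_div_iff₀ hq0]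
        linarith
      linarith)
  have hV : ∀ v, v < (B.L (k + m₁ + 1)).n → B.ls k (m₁ + 1) F v 0 ≤ (μ + 2 * δ) * (B.L (k + m₁ + 1)).h v := by
    intro v hv
    have h1 := hpr (k + m₁ + 1) (by omega) v hv
    have e1 : k + m₁ + 1 - k = m₁ + 1 := by omega
    simp only [e1] at h1
    have h2 : (z (k + m₁ + 1) v : ℝ) / q ≤ 0 := by
      have h3 : (z (k + m₁ + 1) v : ℝ) ≤ 0 := by exact_mod_cast hneg (k + m₁ + 1) (by omega) v hv
      exact div_nonpos_of_nonpos_of_nonneg h3 hq0.le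
    have h4 := hsmall (k + d) le_rfl
    have h5 : (0 : ℝ) ≤ (B.L (k + m₁ + 1)).h v := Nat.cast_nonneg _
    nlinarith
  have hall := hTS2 B M hB k m₁ F C hC hF (μ + 2 * δ) hV
  have hfC : ∀ y, |f y| ≤ C := by
    intro y
    rw [hf y]
    exact hF _ (y.2 k).1
  obtain ⟨D, hD⟩ := hTBK B M hB α hα hαI k (m₁ + 1) F f C (μ + 3 * δ) hf hfC (by
    intro e s hes
    have h1 := hall e s hes.1 hes.2.2
    refine h1.trans ?_
    have h2 := hsmall (k + m₁) (by omega)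
    have h3 : (0 : ℝ) ≤ (B.L (k + m₁ + 1)).h e := Nat.cast_nonneg _
    have h4 : 0 ≤ C * (1 / 2 : ℝ) ^ (k + m₁) := by positivity
    have h5 : μ + 2 * δ + C * (1 / 2) ^ (k + m₁) ≤ μ + 3 * δ := by linarith
    exact mul_le_mul_of_nonneg_right h5 h3)
  have hfin := hTBI ↥(XS B) α φ f (μ + 3 * δ) D hD
  linarith

end Pool.Agent.BND
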