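import Pool.Agent.helper53.BND.SpecT

/-! Row bnd:TIZ (helper24): the weight of a vertex as a combination of the weights of a higher level. -/

set_option autoImplicit false

open scoped Topology
open Finset Filter

namespace Pool.Agent.BND

open Pool.Agent.CZ Pool.Agent.PV Pool.Agent.PVH

theorem TIZ (hTHH : THH_stmt) : TIZ_stmt := by
  intro B M hB k v₀ hv₀ d
  induction d with
  | zero =>
    refine ⟨fun v => if v = v₀ then 1 else 0, ?_, ?_⟩
    · intro v hv
      by_cases h : v = v₀
      · simp only [h, if_true]
        exact (hB.lv k).pos v₀ (lt_of_lt_of_le hv₀ (hB.lv k).nN)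
      · simp only [h, if_false]
        exact Nat.zero_le _
    · intro r hr
      rw [Finset.sum_eq_single v₀]
      · simp only [if_true, Nat.cast_one, one_mul]
        rfl
      · intro v _ hv
        simp only [hv, if_false, Nat.cast_zero, zero_mul]
      · intro h
        exact absurd (mem_range.2 hv₀) h
  | succ d ih =>
    obtain ⟨z, hz, hr⟩ := ih
    refine ⟨fun v' => ∑ v ∈ range (B.L (k + d)).n, M (k + d) v' v * z v, ?_, ?_⟩
    · intro v' hv'
      have h1 := hTHH B M hB (k + d) v' hv'
      have h2 : ((∑ v ∈ range (B.L (k + d)).n, M (k + d) v' v * z v : ℕ) : ℝ) ≤ ((B.L (k + d + 1)).h v' : ℝ) := by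
        rw [← h1]
        push_cast
        refine Finset.sum_le_sum fun v hv => ?_
        have h3 : (z v : ℝ) ≤ ((B.L (k + d)).h v : ℝ) := by exact_mod_cast hz v (mem_range.1 hv)
        exact mul_le_mul_of_nonneg_left h3 (Nat.cast_nonneg _)
      exact_mod_cast h2
    · intro r hwt
      rw [hr r hwt]
      have h1 : ∑ v ∈ range (B.L (k + d)).n, (z v : ℝ) * r (k + d) v =
          ∑ v ∈ range (B.L (k + d)).n, ∑ v' ∈ range (B.L (k + d + 1)).n,
            (z v : ℝ) * ((M (k + d) v' v : ℝ) * r (k + d + 1) v') := by
        refine Finset.sum_congr rfl fun v hv => ?_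
        rw [hwt.eq (k + d) v (mem_range.1 hv), Finset.mul_sum]
      rw [h1, Finset.sum_comm]
      refine Finset.sum_congr rfl fun v' _ => ?_
      push_cast
      rw [Finset.sum_mul]
      refine Finset.sum_congr rfl fun v _ => ?_
      show (z v : ℝ) * ((M (k + d) v' v : ℝ) * r (k + d + 1) v') = (M (k + d) v' v : ℝ) * (z v : ℝ) * r (k + d + 1) v'
      ring

end Pool.Agent.BND
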